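import Pool.Agent.Y166.CS.Stm2

/-!
# Project CS (helper166): the singular points of the surfaces (proof by helper484)
-/

set_option autoImplicit false

namespace Pool.Agent.Y484.CS

open Pool.Agent.Results.MP_c4712b_ag.ManyNodesFamily

theorem done : Pool.Agent.Y166.CS.S_SING := by
  intro f k hk a
  obtain ⟨e0, e1, e2⟩ := eval_pderiv_surf f k a
  constructor
  · rintro ⟨h0, h⟩
    have d0 := h 0
    have d1 := h 1
    have d2 := h 2
    rw [e0] at d0
    rw [e1] at d1
    rw [e2] at d2
    have hk0 : (k : ℂ) ≠ 0 := by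
      have : k ≠ 0 := by omega
      exact_mod_cast this
    have ha1 : a 1 = 0 := by
      have h2 := neg_eq_zero.mp d1
      rcases mul_eq_zero.mp h2 with h3 | h3
      · exact absurd h3 hk0
      · exact pow_eq_zero_iff (by omega) |>.mp h3
    exact ⟨d2, ha1, d0⟩
  · rintro ⟨h0, h1, h2⟩
    refine ⟨?_, fun i => ?_⟩
    · rw [eval_surf, h0, h1, zero_mul, zero_pow (by omega), sub_zero]
    · fin_cases i
      · exact e0.trans h2
      · have h3 : k - 1 ≠ 0 := by omega
        refine e1.trans ?_
        rw [h1, zero_pow h3, mul_zero, neg_zero]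
      · exact e2.trans h0

end Pool.Agent.Y484.CS
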